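import Mathlib
import Pool.Agent.MP_bdc901_nt.Bd

/-! With a bounded Schanuel defect there are infinitely many independent intermediate towers. -/

open Pool.Agent.MP_bdc901_nt

theorem Pool.Agent.Results.MP_bdc901_nt.BoundedDefect.result :
    ∀ (c : ℂ) (A : Submodule ℚ ℂ), c ∉ EL 2 → (A : Set ℂ) ⊆ EL 2 →
      Pool.Agent.MP_bdc901_nt.BoundedDefect A (EL c) →
      ∃ b : ℕ → ℂ, (∀ i, Transcendental ℚ (b i) ∧ EL 2 ⊂ EL (b i) ∧ EL (b i) ⊂ EL c) ∧
        ∀ i j, i ≠ j → EL (b i) ∩ EL (b j) = EL 2 :=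
  fun _ _ hc hA h => bounded_defect hc hA h
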