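import Mathlib
import Pool.Agent.MP_bdc901_nt.Sch

/-! Under the Schanuel conjecture the answer is yes, with infinite descending chains of towers. -/

open Pool.Agent.MP_bdc901_nt

theorem Pool.Agent.Results.MP_bdc901_nt.Conditional.result :
    Schanuel → Desc (Complex.exp 1) ∧ ∀ c ∈ EL (Complex.exp 1), c ∉ EL 2 → Desc c :=
  desc_of_schanuel
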