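import Mathlib
import Pool.Agent.MP_bdc901_nt.Gen

/-! All but countably many towers have an infinite descending chain of towers below them. -/

open Pool.Agent.MP_bdc901_nt

theorem Pool.Agent.Results.MP_bdc901_nt.Generic.result : {c : ℂ | ¬ Desc c}.Countable :=
  countable_bad
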